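import Pool.Agent.R490.P3m

set_option autoImplicit false

/-!
# Products of at most three primes in almost all reduced classes of every modulus
-/

namespace Pool.Agent.Results.MP_5b0a7e_nt.AlmostPrimesAlmostAllClasses

open Finset Filter

open Classical in
/-- the number of the integers `2 ≤ N ≤ X`, `N ≡ b` modulo `a`, with at most `k` prime factors (counted with
multiplicity), all of them at least `w` -/
noncomputable def almostPrimes (a b k : ℕ) (w X : ℝ) : ℕ :=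
  ((Icc 2 ⌊X⌋₊).filter (fun N => N ≡ b [MOD a] ∧ N.primeFactorsList.length ≤ k ∧
    ∀ p : ℕ, p.Prime → p ∣ N → w ≤ p)).card

/-- **Almost primes in almost all classes of every modulus.** -/
theorem result (θ ε : ℝ) (k : ℕ) (hθ : 0 < θ) (hθ1 : θ ≤ 1) (hk : 1 / 8 + 25 / (12 * θ) < k) (hε : 0 < ε) :
    ∃ c Λ : ℝ, 0 < c ∧ 0 < Λ ∧ ∀ l : ℝ, Λ ≤ l → ∃ a₀ : ℕ, ∀ a : ℕ, a₀ ≤ a → ∀ Z L : ℕ,
      (a : ℝ) ^ θ ≤ L → Z + L ≤ a →
      (({b : ℕ | b ∈ Ioc Z (Z + L) ∧ b.Coprime a ∧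
        (almostPrimes a b k ((a : ℝ) ^ (θ / 9)) (l * (a.totient * Real.log a)) : ℝ) < c * l} : Set ℕ).ncard : ℝ) ≤
        ε * (L * ((a.totient : ℝ) / a)) := by
  classical
  obtain ⟨c, Λ, hc, hΛ, h⟩ := R490.P3m.final θ ε k hθ hθ1 hk hε
  refine ⟨c, Λ, hc, hΛ, ?_⟩
  intro l hl
  obtain ⟨a₀, ha₀⟩ := eventually_atTop.1 (h l hl)
  refine ⟨a₀, ?_⟩
  intro a ha Z L hL hZ
  have h1 := ha₀ a ha Z L hL hZ
  have e : ({b : ℕ | b ∈ Ioc Z (Z + L) ∧ b.Coprime a ∧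
        (almostPrimes a b k ((a : ℝ) ^ (θ / 9)) (l * (a.totient * Real.log a)) : ℝ) < c * l} : Set ℕ) =
      (((Ioc Z (Z + L)).filter (fun b => b.Coprime a ∧
        (R490.P3m.count a k b ((a : ℝ) ^ (θ / 9)) (l * (a.totient * Real.log a)) : ℝ) < c * l) : Finset ℕ) :
          Set ℕ) := by
    ext b
    rw [Finset.coe_filter]
    rfl
  rw [e, Set.ncard_coe_finset]
  exact h1

end Pool.Agent.Results.MP_5b0a7e_nt.AlmostPrimesAlmostAllClasses
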