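import Pool.Agent.R502.AQ.Final

set_option autoImplicit false

/-! # Prime moduli: for every `λ` a positive proportion of the classes have least prime above
`λ q log q`

Let `p(q, a)` be the least prime in the class `a` modulo `q`.  Erdős (1949) showed that
`p(q, a) > (1 + c) φ(q) log q` for a positive proportion of the classes, for infinitely many `q`.
For moduli `q` without prime factors up to `q ^ δ`, in particular for all primes `q`, we show that
`p(q, a) > λ q log q` for a positive proportion of the classes, for every `λ`.  Moreover, in every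
interval of at least `q ^ δ` classes there is a positive proportion of classes all of whose first
`λ log q` members have a prime factor at most `q ^ δ`.

Proof: for such moduli the integers `a q⁻¹`, where `q⁻¹` is an inverse of `q` modulo the primes up
to a small power of `q`, are well distributed, and the Selberg type weights for blocks of
`Pool/Agent/R526/AA` apply to them after a modification of the proof
(`Pool/Agent/R502/AQ/Core.lean`): the size of the integers is not used, only the number of the
prime factors that count. -/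

namespace Pool.Agent.Results.MP_5b0a7e_nt.EveryMultipleOfTheMean

open Classical in
theorem result :
    (∀ δ lam : ℝ, 0 < δ → δ < 1 → 0 < lam → ∃ c : ℝ, 0 < c ∧ ∃ q₀ : ℕ, ∀ q : ℕ, q₀ ≤ q →
      (∀ p : ℕ, p.Prime → p ∣ q → (q : ℝ) ^ δ < p) →
      c * q.totient ≤ (((Finset.range q).filter (fun a => a.Coprime q ∧ ∀ p : ℕ, p.Prime →
        p ≡ a [MOD q] → lam * q * Real.log q < p)).card : ℝ)) ∧
    (∀ δ lam : ℝ, 0 < δ → δ ≤ 1 → 0 < lam → ∃ c : ℝ, 0 < c ∧ ∃ q₀ : ℕ, ∀ q : ℕ, q₀ ≤ q →
      (∀ p : ℕ, p.Prime → p ∣ q → (q : ℝ) ^ δ < p) →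
      ∀ A y : ℕ, 1 ≤ A → A + y ≤ 2 * q → (q : ℝ) ^ δ ≤ y →
      c * y ≤ (((Finset.Ico A (A + y)).filter (fun a => ∀ j < ⌈lam * Real.log q⌉₊,
        ∃ p : ℕ, p.Prime ∧ (p : ℝ) ≤ (q : ℝ) ^ δ ∧ p ∣ a + j * q)).card : ℝ)) :=
  ⟨fun δ lam hδ hδ1 hlam => Pool.Agent.R502.AQ.least_primes δ lam hδ hδ1 hlam,
    fun δ lam hδ hδ1 hlam => Pool.Agent.R502.AQ.ap_pos δ lam hδ hδ1 hlam⟩

end Pool.Agent.Results.MP_5b0a7e_nt.EveryMultipleOfTheMean
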