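import Pool.Agent.R501.PV3

/-!
# The least primes in almost all classes, for almost all palindromic moduli

Nothing is used besides Mathlib in the statement about the primes. Definitions used from the starting file
`Pool.Agent.TH872.Transfer` (namespace `Pool.Agent.TH872.Tr`): `num g k E`: the number of the palindromes with exactly
`k` digits in base `g` which have the property `E`; `value g k μ c d z`: the integer `c + μ v`, where `v` has the pair of
digits `d i` at the positions `i` and `k - 1 - i`, for `i < k / 2`, and, if `k` is odd, the middle digit `z`;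
`Prob g k w u E`: the probability of the event `E` if the pairs `d i` and the digit `z` are chosen independently of each
other with the distributions `w i` and `u`; `Pairs g k η w`: the `w i` are distributions of pairs of digits, and two
independent copies of the pair number `i` (`i ≥ 1`) differ in both digits with a probability of at least `η`.
-/

set_option autoImplicit false

namespace Pool.Agent.Results.MP_5b0a7e_nt.PalindromicModuli

open Finset Pool.Agent.TH872.Tr

open Classical in
/-- The number of the `b` with `0 ≤ b < a` and `gcd(a, b) = 1` for which no prime `p ≤ x` is congruent to `b` modulo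
`a`; for `a ≥ 2` this is the number of the reduced classes with `p(a, b) > x`. -/
noncomputable def late (a : ℕ) (x : ℝ) : ℕ :=
  ((range a).filter (fun b => Nat.Coprime b a ∧ ∀ p : ℕ, p.Prime → (p : ℝ) ≤ x → ¬ p % a = b)).card

/-- `ψ(x; a, b) = ∑_{n ≤ x, n ≡ b mod a} Λ(n)` for `0 ≤ b < a` -/
noncomputable def psiAP (x : ℝ) (a b : ℕ) : ℝ :=
  ∑ n ∈ (Icc 1 ⌊x⌋₊).filter (fun n => n % a = b), ArithmeticFunction.vonMangoldt n

open Classical in
/-- The number of the `b` with `0 ≤ b < a` and `gcd(a, b) = 1` with `|ψ(x; a, b) - x / φ(a)| ≥ η x / φ(a)`. -/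
noncomputable def off (a : ℕ) (x η : ℝ) : ℕ :=
  ((range a).filter (fun b => Nat.Coprime b a ∧ η * (x / (Nat.totient a : ℝ)) ≤
    |psiAP x a b - x / (Nat.totient a : ℝ)|)).card

/-- For all real `x = lam φ(a) log a` with `a ≤ x ≤ a (log a) ^ κ`: the least prime `p(a, b)` is larger than `x` for at
most `(1 + ε) φ(a) / (1 + lam)` of the reduced classes `b`, and for all `η > 0` at most `(1 + ε) φ(a) / (η² lam)` of the
reduced classes `b` have `|ψ(x; a, b) - x / φ(a)| ≥ η x / φ(a)`. -/
def Good (ε : ℝ) (κ a : ℕ) : Prop :=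
  ∀ x : ℝ, (a : ℝ) ≤ x → x ≤ a * Real.log a ^ κ →
    (late a x : ℝ) * (1 + x / (Nat.totient a * Real.log a)) ≤ (1 + ε) * Nat.totient a ∧
    ∀ η : ℝ, 0 < η → (off a x η : ℝ) * (η ^ 2 * (x / (Nat.totient a * Real.log a))) ≤ (1 + ε) * Nat.totient a

lemma good_iff (ε : ℝ) (κ a : ℕ) : Good ε κ a ↔ Pool.Agent.R501.LP.LpG ε κ a := Iff.rfl

lemma good_mono (ε : ℝ) (κ κ' a : ℕ) (h : κ ≤ κ') (ha : 3 ≤ a) (hg : Good ε κ' a) : Good ε κ a := by
  intro x h1 h2
  apply hg x h1 (h2.trans _)
  apply mul_le_mul_of_nonneg_left _ (Nat.cast_nonneg _)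
  apply pow_le_pow_right₀ _ h
  have ha3r : (3 : ℝ) ≤ a := by exact_mod_cast ha
  rw [Real.le_log_iff_exp_le (by linarith)]
  have := Real.exp_one_lt_d9
  linarith

open Classical in
lemma num_mono (b k : ℕ) (E F : ℕ → Prop) (h : ∀ v : ℕ, IsPalindrome b k v → E v → F v) : num b k E ≤ num b k F := by
  unfold num
  apply card_le_card
  intro v hv
  rw [mem_filter] at hv ⊢
  exact ⟨hv.1, hv.2.1, h v hv.2.1 hv.2.2⟩

/-- **The least primes in almost all classes, for palindromic moduli.** Let `g ≥ 2`, `B`, `κ`, `U`, the integer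
`μ ≠ 0`, `η > 0` and `0 < ε ≤ 1` be fixed, let `k` be large, and let `c` be an arbitrary integer with `|c| ≤ B g ^ k`. Let
`Good` be the following property of a modulus `a`: for all real `x = lam φ(a) log a` with `a ≤ x ≤ a (log a) ^ κ` one has
`p(a, b) ≤ x` for all reduced classes `b` with at most `(1 + ε) φ(a) / (1 + lam)` exceptions (for `lam = C₁ log a`:
`p(a, b) ≤ C₁ φ(a) (log a)²` with fewer than `(1 + ε) φ(a) / (C₁ log a)` exceptions), and for all `η > 0` one has
`|ψ(x; a, b) - x / φ(a)| < η x / φ(a)` with at most `(1 + ε) φ(a) / (η² lam)` exceptions.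

(1) Let `v` be a random integer with `k` digits in base `g`, such that the pairs formed by the digits at the positions `i`
and `k - 1 - i` are independent of each other for different `i`. Inside of a pair the digits may depend on each other in
an arbitrary way; the distributions of the pairs are arbitrary (and depend on the position and on `k`), only two
independent copies of a pair (with `i ≥ 1`) should differ in both digits with a probability of at least `η`. Then, with a
probability of at least `1 - 1 / k ^ U`, the modulus `a = c + μ v` is smaller than `g ^ k / k ^ κ`, or it is `Good`.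

(2) In particular this holds for the moduli `a = c + μ v` with all the palindromes `v` with `k` digits in base `g`, up to
a proportion of at most `1 / k ^ U` of them.

(3) For the palindromes themselves (`c = 0`, `μ = 1`): all palindromes `a` with exactly `k` digits in base `g`, up to a
proportion of at most `1 / k ^ U`, are `Good`. -/
theorem result (g B κ U : ℕ) (hg : 2 ≤ g) (μ : ℤ) (hμ : μ ≠ 0) (η ε : ℝ) (hη : 0 < η) (hε : 0 < ε) (hε1 : ε ≤ 1) :
    ∃ k₀ : ℕ, ∀ k : ℕ, k₀ ≤ k →
      (∀ c : ℤ, |c| ≤ B * (g : ℤ) ^ k →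
        (∀ (w : ℕ → ℕ × ℕ → ℝ) (u : ℕ → ℝ), Pairs g k η w → (∀ a, 0 ≤ u a) → ∑ a ∈ range g, u a = 1 →
          Prob g k w u (fun d z => (g : ℤ) ^ k ≤ value g k μ c d z * (k : ℤ) ^ κ ∧
            ¬ Good ε κ (value g k μ c d z).toNat) ≤ 1 / (k : ℝ) ^ U) ∧
        (num g k (fun v => (g : ℤ) ^ k ≤ (c + μ * v) * (k : ℤ) ^ κ ∧ ¬ Good ε κ (c + μ * v).toNat) : ℝ) ≤
          num g k (fun _ => True) / (k : ℝ) ^ U) ∧
      (num g k (fun a => ¬ Good ε κ a) : ℝ) ≤ num g k (fun _ => True) / (k : ℝ) ^ U := by
  obtain ⟨k₀, h⟩ := transfer g B U hg μ _ (Pool.Agent.R501.PV.pal_rare_lp g B κ U hg μ hμ ε hε hε1) η hη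
  obtain ⟨k₁, h'⟩ := transfer g 0 U hg 1 _ (Pool.Agent.R501.PV.pal_rare_lp g 0 (κ + 1) U hg 1 one_ne_zero ε hε hε1) 1 one_pos
  refine ⟨k₀ + k₁ + g + 4, fun k hk => ⟨fun c hc => ?_, ?_⟩⟩
  · exact h k (by omega) c hc (fun Q => (g : ℤ) ^ k ≤ Q * (k : ℤ) ^ κ ∧ ¬ Good ε κ Q.toNat)
      (fun n hn => hn)
  · have h1 := (h' k (by omega) 0 (by simp) (fun Q => (g : ℤ) ^ k ≤ Q * (k : ℤ) ^ (κ + 1) ∧ ¬ Good ε (κ + 1) Q.toNat)
      (fun n hn => hn)).2
    refine le_trans ?_ h1
    have h2 : ∀ v : ℕ, IsPalindrome g k v → ¬ Good ε κ v →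
        (g : ℤ) ^ k ≤ (0 + 1 * (v : ℤ)) * (k : ℤ) ^ (κ + 1) ∧ ¬ Good ε (κ + 1) (0 + 1 * (v : ℤ)).toNat := by
      intro v hv hbad
      rw [zero_add, one_mul, Int.toNat_natCast]
      have hk1 : 1 ≤ k := by omega
      constructor
      · have e1 : g ^ k = g ^ (k - 1) * g := by rw [← pow_succ]; congr 1; omega
        have e2 : g ^ k ≤ v * k ^ (κ + 1) := by
          rw [e1]
          apply Nat.mul_le_mul hv.1
          calc g ≤ k := by omega
            _ = k ^ 1 := (pow_one k).symm
            _ ≤ k ^ (κ + 1) := Nat.pow_le_pow_right hk1 (by omega)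
        exact_mod_cast e2
      · intro hgood
        apply hbad
        apply good_mono ε κ (κ + 1) v (by omega) _ hgood
        have e1 : k - 1 < g ^ (k - 1) := Nat.lt_pow_self (by omega)
        have e2 := hv.1
        omega
    exact Nat.cast_le.2 (num_mono _ _ _ _ h2)

end Pool.Agent.Results.MP_5b0a7e_nt.PalindromicModuli
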