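import Pool.Agent.R501.LP1
import Pool.Agent.Y958.RM.Any
import Pool.Agent.Y958.RM.Cor
import Pool.Agent.Y958.RM.Lawh
import Pool.Agent.Y454.RM.Lash

/-!
# The least primes in almost all classes, for almost all values of sums of independent random integers

Nothing is used besides Mathlib in the statement.
-/

set_option autoImplicit false

namespace Pool.Agent.Results.MP_5b0a7e_nt.RandomSumModuli

open Finset

open Classical in
/-- The number of the `b` with `0 ≤ b < a` and `gcd(a, b) = 1` for which no prime `p ≤ x` is congruent to `b` modulo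
`a`; for `a ≥ 2` this is the number of the reduced classes with `p(a, b) > x`. -/
noncomputable def late (a : ℕ) (x : ℝ) : ℕ :=
  ((range a).filter (fun b => Nat.Coprime b a ∧ ∀ p : ℕ, p.Prime → (p : ℝ) ≤ x → ¬ p % a = b)).card

/-- `ψ(x; a, b) = ∑_{n ≤ x, n ≡ b mod a} Λ(n)` for `0 ≤ b < a` -/
noncomputable def psiAP (x : ℝ) (a b : ℕ) : ℝ :=
  ∑ n ∈ (Icc 1 ⌊x⌋₊).filter (fun n => n % a = b), ArithmeticFunction.vonMangoldt n

open Classical in
/-- The number of the `b` with `0 ≤ b < a` and `gcd(a, b) = 1` with `|ψ(x; a, b) - x / φ(a)| ≥ η x / φ(a)`. -/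
noncomputable def off (a : ℕ) (x η : ℝ) : ℕ :=
  ((range a).filter (fun b => Nat.Coprime b a ∧ η * (x / (Nat.totient a : ℝ)) ≤
    |psiAP x a b - x / (Nat.totient a : ℝ)|)).card

/-- For all real `x = lam φ(a) log a` with `a ≤ x ≤ a (log a) ^ κ`: the least prime `p(a, b)` is larger than `x` for at
most `(1 + ε) φ(a) / (1 + lam)` of the reduced classes `b`, and for all `η > 0` at most `(1 + ε) φ(a) / (η² lam)` of the
reduced classes `b` have `|ψ(x; a, b) - x / φ(a)| ≥ η x / φ(a)`. -/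
def Good (ε : ℝ) (κ a : ℕ) : Prop :=
  ∀ x : ℝ, (a : ℝ) ≤ x → x ≤ a * Real.log a ^ κ →
    (late a x : ℝ) * (1 + x / (Nat.totient a * Real.log a)) ≤ (1 + ε) * Nat.totient a ∧
    ∀ η : ℝ, 0 < η → (off a x η : ℝ) * (η ^ 2 * (x / (Nat.totient a * Real.log a))) ≤ (1 + ε) * Nat.totient a

/-- The set `J` of scales below `k` is rich: it contains more than three fifths of all the scales, more than one half
of the `m` lowest scales, and a positive proportion of the `m` highest scales (the last two conditions are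
void for `m ≤ D log k`). -/
structure Rich (δ : ℝ) (D k : ℕ) (J : Finset ℕ) : Prop where
  lt : ∀ j ∈ J, j < k
  all : (3 / 5 + δ) * k ≤ (J.card : ℝ)
  low : ∀ m ≤ k, (1 / 2 + δ) * m ≤ ((J.filter fun j => j < m).card : ℝ) + D * Real.log k
  high : ∀ m ≤ k, δ * m ≤ ((J.filter fun j => k - m ≤ j).card : ℝ) + D * Real.log k

open Classical in
/-- The probability of the event `E` if `x 0, ..., x (k - 1)` are independent random integers, where `x j` takes
its values in the finite set `s j`, and the value `x` with the probability `p j x`. -/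
noncomputable def Prob (k : ℕ) (s : ℕ → Finset ℤ) (p : ℕ → ℤ → ℝ) (E : (Fin k → ℤ) → Prop) : ℝ :=
  ∑ x ∈ Fintype.piFinset (fun j : Fin k => s j), if E x then ∏ j : Fin k, p j (x j) else 0

lemma good_iff (ε : ℝ) (κ a : ℕ) : Good ε κ a ↔ Pool.Agent.R501.LP.LpG ε κ a := Iff.rfl

/-- the bad event (used in the proof only) -/
def Ev (ε : ℝ) (κ b k : ℕ) (Q : ℤ) : Prop := (b : ℤ) ^ k ≤ Q * (k : ℤ) ^ κ ∧ ¬ Good ε κ Q.toNat

open Classical in
/-- **The least primes in almost all classes, for random moduli.** Let `κ` and `0 < ε ≤ 1` be given, and let `Good` be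
the following property of a modulus `a`: for all real `x = lam φ(a) log a` with `a ≤ x ≤ a (log a) ^ κ` one has
`p(a, b) ≤ x` for all reduced classes `b` with at most `(1 + ε) φ(a) / (1 + lam)` exceptions (for `lam = C₁ log a`:
`p(a, b) ≤ C₁ φ(a) (log a)²` with fewer than `(1 + ε) φ(a) / (C₁ log a)` exceptions), and for all `η > 0` one has
`|ψ(x; a, b) - x / φ(a)| < η x / φ(a)` with at most `(1 + ε) φ(a) / (η² lam)` exceptions.

Let `g ≥ 2`, `B ≥ 1`, `D`, `U`, `η > 0`, `δ > 0` be fixed, let `k` be large, and let `J` be an arbitrary rich set of scales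
below `k`. (1) Let `x 0, ..., x (k - 1)` be arbitrary independent random integers with `|x j| ≤ B g ^ j` such that, for
all `j` in `J`, no interval of the length `g ^ j / B` contains `x j` with a probability larger than `1 - η` (nothing is
assumed for the other `j`: these `x j` may be constants). Let `c` be an arbitrary integer with `|c| ≤ B g ^ k`. Then, with
a probability of at least `1 - 1 / k ^ U`, the modulus `a = c + x 0 + ... + x (k - 1)` is smaller than `g ^ k / k ^ κ`, or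
it is `Good`. (2) Let `A 0, ..., A (k - 1)` be arbitrary nonempty sets of digits in base `g`, such that `A j` has at least
two elements if `j` is in `J` (the other digits may be prescribed). Then the same holds for all the moduli `a < g ^ k`
whose digit at the place `j` belongs to `A j` for all `j < k`, with at most `(#A 0 ⋯ #A (k - 1)) / k ^ U` exceptions.

(3) For every `l ≥ 2` there is a constant `C = C(l, κ)` such that for `0 < ε ≤ 1` and every sufficiently large integer `N`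
the following holds. Let `A` be an arbitrary set of integers which contains an element of every interval `[x, l x]`, `x ≥ 1`
(`C` and `N₀` do not depend on `A`). Then `N` is the sum of a `Good` modulus `a ≥ N / 2` and of at most
`C (log log N) ^ 2` distinct elements of `A`. -/
theorem result (κ : ℕ) :
    (∀ (g B D U : ℕ), 2 ≤ g → 1 ≤ B → ∀ η δ ε : ℝ, 0 < η → 0 < δ → 0 < ε → ε ≤ 1 → ∃ k₀ : ℕ, ∀ k : ℕ, k₀ ≤ k →
      ∀ J : Finset ℕ, Rich δ D k J →
      (∀ (s : ℕ → Finset ℤ) (p : ℕ → ℤ → ℝ),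
        (∀ j < k, (∀ x ∈ s j, 0 ≤ p j x ∧ |x| ≤ (B : ℤ) * (g : ℤ) ^ j) ∧ ∑ x ∈ s j, p j x = 1) →
        (∀ j ∈ J, ∀ y : ℤ, ∑ x ∈ (s j).filter (fun x => y ≤ x ∧ (B : ℤ) * (x - y) ≤ (g : ℤ) ^ j), p j x ≤ 1 - η) →
        ∀ c : ℤ, |c| ≤ (B : ℤ) * (g : ℤ) ^ k →
          Prob k s p (fun x => (g : ℤ) ^ k ≤ (c + ∑ j, x j) * (k : ℤ) ^ κ ∧ ¬ Good ε κ (c + ∑ j, x j).toNat) ≤
            1 / (k : ℝ) ^ U) ∧
      (∀ A : ℕ → Finset ℕ, (∀ j < k, (A j).Nonempty ∧ ∀ a ∈ A j, a < g) → (∀ j ∈ J, 2 ≤ (A j).card) →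
        (((range (g ^ k)).filter fun a : ℕ =>
            (∀ j < k, a / g ^ j % g ∈ A j) ∧ g ^ k ≤ a * k ^ κ ∧ ¬ Good ε κ a).card : ℝ) ≤
          (∏ j ∈ range k, ((A j).card : ℝ)) / (k : ℝ) ^ U)) ∧
    (∀ l : ℕ, 2 ≤ l → ∃ C : ℝ, ∀ ε : ℝ, 0 < ε → ε ≤ 1 → ∃ N₀ : ℕ, ∀ A : Set ℕ,
      (∀ x : ℕ, 1 ≤ x → ∃ y ∈ A, x ≤ y ∧ y ≤ l * x) → ∀ N : ℕ, N₀ ≤ N →
        ∃ S : Finset ℕ, (∀ y ∈ S, y ∈ A) ∧ (S.card : ℝ) ≤ C * Real.log (Real.log N) ^ 2 ∧
          ∃ a : ℕ, a + ∑ y ∈ S, y = N ∧ N ≤ 2 * a ∧ Good ε κ a) := by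
  have hLAWH := Pool.Agent.Y958.RM.lawh
  have hLASH := Pool.Agent.Y454.RM.t_LASH
  have hCOR := Pool.Agent.Y958.RM.cor
  refine ⟨?_, ?_⟩
  · intro b B D U hb hB η δ ε hη hδ hε hε1
    have main : ∀ (B : ℕ), 1 ≤ B → ∀ η : ℝ, 0 < η → ∃ k₀ : ℕ, ∀ k : ℕ, k₀ ≤ k → ∀ J : Finset ℕ, Pool.Agent.Y885.Rich δ D k J →
        ∀ (s : ℕ → Finset ℤ) (p : ℕ → ℤ → ℝ) (c : ℤ),
        (∀ j < k, (∀ x ∈ s j, 0 ≤ p j x ∧ |x| ≤ (B : ℤ) * (b : ℤ) ^ j) ∧ ∑ x ∈ s j, p j x = 1) →
        (∀ j ∈ J, ∀ y : ℤ, ∑ x ∈ s j, (if y ≤ x ∧ (B : ℤ) * (x - y) ≤ (b : ℤ) ^ j then p j x else 0) ≤ 1 - η) →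
        |c| ≤ (B : ℤ) * (b : ℤ) ^ k →
        ∑ ω ∈ Fintype.piFinset (fun j : Fin k => s j), (if Ev ε κ b k (c + ∑ j : Fin k, ω j) then
          ∏ j : Fin k, p j (ω j) else 0) ≤ 1 / (k : ℝ) ^ U := by
      intro B hB η hη
      obtain ⟨k₁, h1⟩ := Pool.Agent.Y958.RM.rnd hLAWH hCOR b B D (κ + 1) U hb hB η δ (ε / 4) hη hδ (by linarith) (by linarith)
      obtain ⟨k₂, h2⟩ := Pool.Agent.R501.LP.badq_of_lp b (2 * B) κ hb ε hε hε1
      refine ⟨k₁ + k₂, fun k hk J hJ s p c hs hp hc => ?_⟩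
      refine le_trans ?_ (h1 k (by omega) J s p c hJ hs hp hc)
      apply sum_le_sum
      intro ω hω
      have hp0 : 0 ≤ ∏ j : Fin k, p j (ω j) := by
        rw [Fintype.mem_piFinset] at hω
        exact prod_nonneg fun j _ => ((hs j j.2).1 _ (hω j)).1
      have hle := Pool.Agent.Y885.rand_le b B k hb s c (fun j hj x hx => ((hs j hj).1 x hx).2) hc ω hω
      split_ifs with h3 h4
      · exact le_rfl
      · exact absurd (h2 k (by omega) _ h3.1 ((le_abs_self _).trans hle) (by rw [← good_iff]; exact h3.2)) h4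
      · exact hp0
      · exact le_rfl
    obtain ⟨k₁, h1⟩ := main B hB η hη
    obtain ⟨k₂, h2⟩ := main b (by omega) (1 / 2) (by norm_num)
    refine ⟨k₁ + k₂, fun k hk J hJ => ?_⟩
    have hJ' : Pool.Agent.Y885.Rich δ D k J := ⟨hJ.lt, hJ.low, hJ.high, hJ.all⟩
    refine ⟨fun s p hs hp c hc => ?_, fun A hA hAJ => ?_⟩
    · refine le_trans (le_of_eq ?_) (h1 k (by omega) J hJ' s p c hs (fun j hj y => by rw [← sum_filter]; exact hp j hj y) hc)
      unfold Prob
      apply sum_congr rfl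
      intro x _
      rfl
    · have h3 := Pool.Agent.Y958.RM.rand_digits' b hb U k (Ev ε κ b k) J
        (fun s p c hs hp hc => h2 k (by omega) J hJ' s p c hs hp hc) A hA hAJ
      refine le_trans (le_of_eq ?_) h3
      congr 2
      ext Q
      rw [mem_filter, mem_filter]
      have e2 : (b : ℤ) ^ k ≤ (Q : ℤ) * (k : ℤ) ^ κ ↔ b ^ k ≤ Q * k ^ κ := by exact_mod_cast Iff.rfl
      unfold Ev
      rw [Int.toNat_natCast, e2]
  · intro l hl
    obtain ⟨C, hC⟩ := Pool.Agent.Y958.RM.any hLASH hCOR l κ hl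
    refine ⟨C, fun ε hε hε1 => ?_⟩
    obtain ⟨N₀, h0⟩ := hC (ε / 4) (by linarith) (by linarith)
    obtain ⟨N₁, h1⟩ := Pool.Agent.R501.LP.lpg_of_var κ ε hε hε1
    refine ⟨N₀ + 2 * N₁ + 6, fun A hA N hN => ?_⟩
    obtain ⟨S, s1, s2, s3, s4⟩ := h0 A hA N (by omega)
    refine ⟨S, s1, s2, N - ∑ a ∈ S, a, by omega, by omega, ?_⟩
    obtain ⟨a, ha⟩ : ∃ a, a = N - ∑ a ∈ S, a := ⟨_, rfl⟩
    rw [← ha] at s4 ⊢
    have haN : a ≤ N := by omega
    have ha3 : 3 ≤ a := by omega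
    have ha3r : (3 : ℝ) ≤ a := by exact_mod_cast ha3
    have hlog1 : 1 ≤ Real.log a := by
      rw [Real.le_log_iff_exp_le (by linarith)]
      have := Real.exp_one_lt_d9
      linarith
    rw [good_iff, ← Pool.Agent.R501.LP.lpg_iff ε κ a (by omega)]
    apply h1 a (by omega)
    intro y hy1 hy2
    apply s4 y hy1 (hy2.trans _)
    apply mul_le_mul_of_nonneg_left _ (by linarith)
    exact pow_le_pow_left₀ (by linarith) (Real.log_le_log (by linarith) (by exact_mod_cast haN)) _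

end Pool.Agent.Results.MP_5b0a7e_nt.RandomSumModuli
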